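import Mathlib
import Pool.Agent.H21.TS.Main

/-!
Sun's conjecture on sums of polygonal numbers of orders `m + 1, …, 2m`, for all `m ≥ 5`.
-/

namespace Pool.Agent.Results.MP_641e94_nt.AllFromFive

/-- The `x`-th `k`-gonal number `(k - 2) x (x - 1) / 2 + x`. -/
def polygonalNumber (k x : ℕ) : ℕ := (k - 2) * x * (x - 1) / 2 + x

/-- For every `m ≥ 5`, every natural number is a sum of `m` polygonal numbers, one of each of the
orders `m + 1, …, 2m`. -/
theorem result : ∀ m : ℕ, 5 ≤ m → ∀ n : ℕ, ∃ x : Fin m → ℕ,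
    n = ∑ i : Fin m, polygonalNumber (m + 1 + (i : ℕ)) (x i) :=
  fun m hm n => Pool.H21.TS.RepS.fin (Pool.H21.TS.all_ge_five m hm n)

end Pool.Agent.Results.MP_641e94_nt.AllFromFive
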